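import Pool.Agent.Y972.EL.PAIR

/-! # Project EL: the universal predicate -/

set_option autoImplicit false

namespace Pool.Agent.Y972.EL

open Pool.Agent.Y924.EL

section

variable {K : Type} {M : Lev K} {N : ℕ} {e : ℕ → K} {z0 z1 : K}

theorem num_iff (he : Enum M N e) (k : ℕ) (a : K) : Num M k a ↔ k < N ∧ a = e k := by
  induction k generalizing a with
  | zero => exact fst_iff he a
  | succ k ih =>
    constructor
    · rintro ⟨h, h1, h2⟩
      obtain ⟨hk, rfl⟩ := (ih h).1 h1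
      obtain ⟨j, hj, h3, rfl⟩ := (suc_iff he _ _).1 h2
      have h4 := enum_inj he hk (by omega) h3
      subst h4
      exact ⟨hj, rfl⟩
    · rintro ⟨hk, rfl⟩
      exact ⟨e k, (ih _).2 ⟨by omega, rfl⟩, (suc_iff he _ _).2 ⟨k, hk, rfl, rfl⟩⟩

theorem num_e (he : Enum M N e) {k i : ℕ} (hi : i < N) : Num M k (e i) ↔ i = k := by
  rw [num_iff he]
  constructor
  · rintro ⟨h1, h2⟩
    exact enum_inj he hi h1 h2
  · rintro rfl
    exact ⟨hi, rfl⟩

theorem pr (hP : S_PAIR) (hG : Good M N) (he : Enum M N e) {a b : K} {k : ℕ} (hk : k < N)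
    (h : PairR M a b (e k)) :
    ∃ i j, a = e i ∧ b = e j ∧ k = Nat.pair i j ∧ i < N ∧ j < N := by
  obtain ⟨i, j, hij, rfl, rfl, h1⟩ := (hP K M N e hG he _ _ _).1 h
  have h2 := enum_inj he hk hij h1
  exact ⟨i, j, rfl, rfl, h2, lt_of_le_of_lt (Nat.left_le_pair i j) hij,
    lt_of_le_of_lt (Nat.right_le_pair i j) hij⟩

theorem pr' (hP : S_PAIR) (hG : Good M N) (he : Enum M N e) {i j : ℕ} {c : K} (hi : i < N)
    (hj : j < N) (h : PairR M (e i) (e j) c) : Nat.pair i j < N ∧ c = e (Nat.pair i j) := by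
  obtain ⟨i', j', hij, h1, h2, rfl⟩ := (hP K M N e hG he _ _ _).1 h
  have h3 := enum_inj he hi (lt_of_le_of_lt (Nat.left_le_pair i' j') hij) h1
  have h4 := enum_inj he hj (lt_of_le_of_lt (Nat.right_le_pair i' j') hij) h2
  subst h3
  subst h4
  exact ⟨hij, rfl⟩

theorem mkp (hP : S_PAIR) (hG : Good M N) (he : Enum M N e) {i j : ℕ} (h : Nat.pair i j < N) :
    PairR M (e i) (e j) (e (Nat.pair i j)) :=
  (hP K M N e hG he _ _ _).2 ⟨i, j, h, rfl, rfl, rfl⟩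

theorem mem_iff (hP : S_PAIR) (hG : Good M N) (he : Enum M N e) (w c x y : K) :
    Mem M z1 w c x y ↔ ∃ c' x' y' : ℕ, c = e c' ∧ x = e x' ∧ y = e y' ∧ tr c' x' y' < N ∧
      M.E w (e (tr c' x' y')) z1 := by
  constructor
  · rintro ⟨q, t, h1, h2, h3⟩
    obtain ⟨i, j, hij, rfl, rfl, rfl⟩ := (hP K M N e hG he _ _ _).1 h1
    obtain ⟨i', j', hij', rfl, h4, rfl⟩ := (hP K M N e hG he _ _ _).1 h2
    have h5 := enum_inj he hij (lt_of_le_of_lt (Nat.right_le_pair i' j') hij') h4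
    subst h5
    exact ⟨i', i, j, rfl, rfl, rfl, hij', h3⟩
  · rintro ⟨c', x', y', rfl, rfl, rfl, h1, h2⟩
    exact ⟨e (Nat.pair x' y'), e (tr c' x' y'),
      mkp hP hG he (lt_of_le_of_lt (Nat.right_le_pair _ _) h1), mkp hP hG he h1, h2⟩

theorem tr_lt {c x y : ℕ} (h : tr c x y < N) : c < N ∧ x < N ∧ y < N := by
  have h1 : c ≤ tr c x y := Nat.left_le_pair _ _
  have h2 : Nat.pair x y ≤ tr c x y := Nat.right_le_pair _ _
  have h3 := Nat.left_le_pair x y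
  have h4 := Nat.right_le_pair x y
  omega

/-- the set coded by `w` -/
def WS (M : Lev K) (N : ℕ) (e : ℕ → K) (z1 w : K) : Set ℕ := {t | t < N ∧ M.E w (e t) z1}

theorem mem_e (hP : S_PAIR) (hG : Good M N) (he : Enum M N e) (w : K) {c x y : ℕ} (hc : c < N)
    (hx : x < N) (hy : y < N) :
    Mem M z1 w (e c) (e x) (e y) ↔ tr c x y ∈ WS M N e z1 w := by
  rw [mem_iff hP hG he]
  constructor
  · rintro ⟨c', x', y', h1, h2, h3, h4, h5⟩
    obtain ⟨h6, h7, h8⟩ := tr_lt h4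
    have h9 := enum_inj he hc h6 h1
    have h10 := enum_inj he hx h7 h2
    have h11 := enum_inj he hy h8 h3
    subst h9 h10 h11
    exact ⟨h4, h5⟩
  · rintro ⟨h1, h2⟩
    exact ⟨c, x, y, rfl, rfl, rfl, h1, h2⟩

/-- all the elements in a membership statement are numbers -/
theorem mem_num (hP : S_PAIR) (hG : Good M N) (he : Enum M N e) {w c x y : K}
    (h : Mem M z1 w c x y) : (∃ k, k < N ∧ c = e k) ∧ (∃ k, k < N ∧ x = e k) ∧
      (∃ k, k < N ∧ y = e k) := by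
  obtain ⟨c', x', y', h1, h2, h3, h4, h5⟩ := (mem_iff hP hG he _ _ _ _).1 h
  obtain ⟨h6, h7, h8⟩ := tr_lt h4
  exact ⟨⟨c', h6, h1⟩, ⟨x', h7, h2⟩, ⟨y', h8, h3⟩⟩

theorem just_of (hP : S_PAIR) (hG : Good M N) (he : Enum M N e) {w : K} {n : ℕ} (hn : n < N)
    (h : JustR M z1 w (e n)) : Just (WS M N e z1 w) n := by
  obtain ⟨c, q, x, y, g, c', c1, c2, h1, h2, h3, h4, h5⟩ := h
  obtain ⟨c, q, rfl, rfl, rfl, hc, hq⟩ := pr hP hG he hn h1
  obtain ⟨x, y, rfl, rfl, rfl, hx, hy⟩ := pr hP hG he hq h2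
  obtain ⟨g, c', rfl, rfl, rfl, hg, hc'⟩ := pr hP hG he hc h3
  obtain ⟨c1, c2, rfl, rfl, rfl, hc1, hc2⟩ := pr hP hG he hc' h4
  refine ⟨_, x, y, g, c1, c2, rfl, rfl, ?_⟩
  rcases h5 with ⟨h6, h7⟩ | ⟨h6, h7⟩ | ⟨h6, v, h7⟩ | ⟨h6, v, h7⟩ | ⟨h6, a, b, h7, h8, h9⟩ |
    ⟨h6, a, h7, h8⟩ | ⟨h6, z, k, h7, h8⟩
  · exact Or.inl ⟨(num_e he hg).1 h6, (fst_e he hy).1 h7⟩
  · exact Or.inr (Or.inl ⟨(num_e he hg).1 h6, (suc_e he hx hy).1 h7⟩)
  · obtain ⟨i, j, h8, rfl, rfl, hi, hj⟩ := pr hP hG he hx h7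
    have h9 := enum_inj he hy hi h8
    subst h9
    exact Or.inr (Or.inr (Or.inl ⟨(num_e he hg).1 h6, j, rfl⟩))
  · obtain ⟨i, j, rfl, h8, rfl, hi, hj⟩ := pr hP hG he hx h7
    have h9 := enum_inj he hy hj h8
    subst h9
    exact Or.inr (Or.inr (Or.inr (Or.inl ⟨(num_e he hg).1 h6, i, rfl⟩)))
  · obtain ⟨a, b, rfl, rfl, rfl, ha, hb⟩ := pr hP hG he hy h9
    exact Or.inr (Or.inr (Or.inr (Or.inr (Or.inl ⟨(num_e he hg).1 h6, a, b,
      (mem_e hP hG he w hc1 hx ha).1 h7, (mem_e hP hG he w hc2 hx hb).1 h8, rfl⟩))))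
  · obtain ⟨-, -, a, ha, rfl⟩ := mem_num hP hG he h7
    exact Or.inr (Or.inr (Or.inr (Or.inr (Or.inr (Or.inl ⟨(num_e he hg).1 h6, a,
      (mem_e hP hG he w hc2 hx ha).1 h7, (mem_e hP hG he w hc1 ha hy).1 h8⟩)))))
  · obtain ⟨z, k, rfl, rfl, rfl, hz, hk⟩ := pr hP hG he hx h7
    refine Or.inr (Or.inr (Or.inr (Or.inr (Or.inr (Or.inr ⟨(num_e he hg).1 h6, z, k, rfl, ?_⟩)))))
    rcases h8 with ⟨h8, h9⟩ | ⟨j, i, xk, q2, x2, h8, h9, h10, h11, h12, h13⟩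
    · exact Or.inl ⟨(fst_e he hk).1 h8, (mem_e hP hG he w hc1 hz hy).1 h9⟩
    · right
      obtain ⟨j, hj, rfl, h14⟩ := (suc_iff he _ _).1 h8
      have h15 := enum_inj he hk hj h14
      have hj' : j < N := by omega
      obtain ⟨h16, rfl⟩ := pr' hP hG he hz hj' h9
      obtain ⟨-, -, i, hi, rfl⟩ := mem_num hP hG he h10
      obtain ⟨h17, rfl⟩ := pr' hP hG he hj' hi h11
      obtain ⟨h18, rfl⟩ := pr' hP hG he hz h17 h12
      exact ⟨j, i, h15, (mem_e hP hG he w hc h16 hi).1 h10, (mem_e hP hG he w hc2 h18 hy).1 h13⟩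

theorem of_just (hP : S_PAIR) (hG : Good M N) (he : Enum M N e) {w : K} {n : ℕ} (hn : n < N)
    (h : Just (WS M N e z1 w) n) : JustR M z1 w (e n) := by
  obtain ⟨c, x, y, g, c1, c2, rfl, rfl, h⟩ := h
  have hxy : Nat.pair x y < N := lt_of_le_of_lt (Nat.right_le_pair _ _) hn
  have hc : Nat.pair g (Nat.pair c1 c2) < N := lt_of_le_of_lt (Nat.left_le_pair _ _) hn
  have hx : x < N := lt_of_le_of_lt (Nat.left_le_pair _ _) hxy
  have hy : y < N := lt_of_le_of_lt (Nat.right_le_pair _ _) hxy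
  have hg : g < N := lt_of_le_of_lt (Nat.left_le_pair _ _) hc
  have hc' : Nat.pair c1 c2 < N := lt_of_le_of_lt (Nat.right_le_pair _ _) hc
  have hc1 : c1 < N := lt_of_le_of_lt (Nat.left_le_pair _ _) hc'
  have hc2 : c2 < N := lt_of_le_of_lt (Nat.right_le_pair _ _) hc'
  refine ⟨e (Nat.pair g (Nat.pair c1 c2)), e (Nat.pair x y), e x, e y, e g, e (Nat.pair c1 c2),
    e c1, e c2, mkp hP hG he hn, mkp hP hG he hxy, mkp hP hG he hc, mkp hP hG he hc', ?_⟩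
  rcases h with ⟨h6, h7⟩ | ⟨h6, h7⟩ | ⟨h6, v, h7⟩ | ⟨h6, v, h7⟩ | ⟨h6, a, b, h7, h8, h9⟩ |
    ⟨h6, a, h7, h8⟩ | ⟨h6, z, k, h7, h8⟩
  · exact Or.inl ⟨(num_e he hg).2 h6, (fst_e he hy).2 h7⟩
  · exact Or.inr (Or.inl ⟨(num_e he hg).2 h6, (suc_e he hx hy).2 h7⟩)
  · subst h7
    exact Or.inr (Or.inr (Or.inl ⟨(num_e he hg).2 h6, e v, mkp hP hG he hx⟩))
  · subst h7
    exact Or.inr (Or.inr (Or.inr (Or.inl ⟨(num_e he hg).2 h6, e v, mkp hP hG he hx⟩)))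
  · subst h9
    have ha := (tr_lt h7.1).2.2
    have hb := (tr_lt h8.1).2.2
    exact Or.inr (Or.inr (Or.inr (Or.inr (Or.inl ⟨(num_e he hg).2 h6, e a, e b,
      (mem_e hP hG he w hc1 hx ha).2 h7, (mem_e hP hG he w hc2 hx hb).2 h8, mkp hP hG he hy⟩))))
  · have ha := (tr_lt h7.1).2.2
    exact Or.inr (Or.inr (Or.inr (Or.inr (Or.inr (Or.inl ⟨(num_e he hg).2 h6, e a,
      (mem_e hP hG he w hc2 hx ha).2 h7, (mem_e hP hG he w hc1 ha hy).2 h8⟩)))))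
  · subst h7
    have hz : z < N := lt_of_le_of_lt (Nat.left_le_pair _ _) hx
    have hk : k < N := lt_of_le_of_lt (Nat.right_le_pair _ _) hx
    refine Or.inr (Or.inr (Or.inr (Or.inr (Or.inr (Or.inr ⟨(num_e he hg).2 h6, e z, e k,
      mkp hP hG he hx, ?_⟩)))))
    rcases h8 with ⟨h8, h9⟩ | ⟨j, i, h8, h9, h10⟩
    · exact Or.inl ⟨(fst_e he hk).2 h8, (mem_e hP hG he w hc1 hz hy).2 h9⟩
    · right
      have hi := (tr_lt h9.1).2.2
      have hzj := (tr_lt h9.1).2.1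
      have hj : j < N := lt_of_le_of_lt (Nat.right_le_pair _ _) hzj
      have hq := (tr_lt h10.1).2.1
      have hji : Nat.pair j i < N := lt_of_le_of_lt (Nat.right_le_pair _ _) hq
      refine ⟨e j, e i, e (Nat.pair z j), e (Nat.pair j i), e (Nat.pair z (Nat.pair j i)),
        (suc_e he hj hk).2 h8, mkp hP hG he hzj, (mem_e hP hG he w hc hzj hi).2 h9,
        mkp hP hG he hji, mkp hP hG he hq, (mem_e hP hG he w hc2 hq hy).2 h10⟩

end

/-- EL-UNI -/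
theorem t_UNI (hP : S_PAIR) : S_UNI := by
  classical
  intro K M N e z0 z1 hG he hz c x y hc hx hy
  constructor
  · rintro ⟨w, h1, h2⟩
    refine ⟨WS M N e z1 w, ?_, (mem_e hP hG he w hc hx hy).1 h2, fun t ht => ht.1⟩
    intro t ht
    exact just_of hP hG he ht.1 (h1 (e t) (enum_D he ht.1) ht.2)
  · rintro ⟨W, h1, h2, h3⟩
    obtain ⟨w, hw⟩ := exists_code hG he (fun t => if t ∈ W then z1 else z0)
    have hW : WS M N e z1 w = W := by
      ext t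
      constructor
      · rintro ⟨h4, h5⟩
        by_contra h6
        have h7 := hw t h4
        rw [if_neg h6] at h7
        exact hz (hG.func _ _ _ _ (enum_D he h4) h7 h5)
      · intro h4
        have h5 := hw t (h3 t h4)
        rw [if_pos h4] at h5
        exact ⟨h3 t h4, h5⟩
    refine ⟨w, ?_, ?_⟩
    · intro t ht h4
      obtain ⟨k, hk, rfl⟩ := (he.1 _).1 ht
      apply of_just hP hG he hk
      rw [hW]
      apply h1
      rw [← hW]
      exact ⟨hk, h4⟩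
    · rw [mem_e hP hG he w hc hx hy, hW]
      exact h2

end Pool.Agent.Y972.EL
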