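import Pool.Agent.Y972.EL.PAIR

/-! # Project EL: the next level is a linear order with `2 ^ N` elements -/

set_option autoImplicit false

namespace Pool.Agent.Y972.EL

open Pool.Agent.Y924.EL

theorem exists_high {N j k : ℕ} (hk : k < 2 ^ N) (h : j < k) :
    ∃ m, m < N ∧ j.testBit m = false ∧ k.testBit m = true ∧
      ∀ m', m < m' → j.testBit m' = k.testBit m' := by
  classical
  have hj : j < 2 ^ N := h.trans hk
  have hbig : ∀ m, N ≤ m → j.testBit m = k.testBit m := by
    intro m hm
    rw [Nat.testBit_lt_two_pow (lt_of_lt_of_le hj (Nat.pow_le_pow_right (by norm_num) hm)),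
      Nat.testBit_lt_two_pow (lt_of_lt_of_le hk (Nat.pow_le_pow_right (by norm_num) hm))]
  obtain ⟨m0, hm0⟩ : ∃ m, j.testBit m ≠ k.testBit m := by
    by_contra hcon
    push Not at hcon
    exact h.ne (Nat.eq_of_testBit_eq hcon)
  have hm0N : m0 ≤ N := by
    by_contra hcon
    exact hm0 (hbig m0 (by omega))
  let P : ℕ → Prop := fun m => j.testBit m ≠ k.testBit m
  let m := Nat.findGreatest P N
  have hm : P m := Nat.findGreatest_spec (P := P) hm0N hm0
  have hmax : ∀ m', m < m' → j.testBit m' = k.testBit m' := by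
    intro m' hm'
    by_cases h1 : m' ≤ N
    · have := Nat.findGreatest_is_greatest (P := P) hm' h1
      by_contra h2
      exact this h2
    · exact hbig m' (by omega)
  have hmN : m < N := by
    by_contra hcon
    exact hm (hbig m (by omega))
  refine ⟨m, hmN, ?_, ?_, hmax⟩
  · by_contra h1
    rw [Bool.not_eq_false] at h1
    have h2 : k.testBit m = false := by
      by_contra h3
      rw [Bool.not_eq_false] at h3
      exact hm (h1.trans h3.symm)
    exact absurd (Nat.lt_of_testBit m h2 h1 (fun i hi => (hmax i hi).symm)) (lt_asymm h)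
  · by_contra h1
    rw [Bool.not_eq_true] at h1
    have h2 : j.testBit m = true := by
      by_contra h3
      rw [Bool.not_eq_true] at h3
      exact hm (h3.trans h1.symm)
    exact absurd (Nat.lt_of_testBit m h1 h2 (fun i hi => (hmax i hi).symm)) (lt_asymm h)

/-- EL-ENUM -/
theorem t_ENUM : S_ENUM := by
  classical
  intro K J z0 z1 M N hz hG
  obtain ⟨e, he⟩ := hG.enum
  have hcode : ∀ k : ℕ, ∃ s, ∀ i, i < N → M.E s (e i) (if k.testBit (N - 1 - i) then z1 else z0) :=
    fun k => exists_code hG he (fun i => if k.testBit (N - 1 - i) then z1 else z0)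
  choose e' he' using hcode
  have hval0 : ∀ k i, i < N → (M.E (e' k) (e i) z0 ↔ k.testBit (N - 1 - i) = false) := by
    intro k i hi
    have h1 := he' k i hi
    constructor
    · intro h2
      by_contra h3
      rw [Bool.not_eq_false] at h3
      rw [if_pos h3] at h1
      exact hz (hG.func _ _ _ _ (enum_D he hi) h2 h1)
    · intro h2
      rw [if_neg (by rw [h2]; exact Bool.false_ne_true)] at h1
      exact h1
  have hval1 : ∀ k i, i < N → (M.E (e' k) (e i) z1 ↔ k.testBit (N - 1 - i) = true) := by
    intro k i hi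
    have h1 := he' k i hi
    constructor
    · intro h2
      by_contra h3
      rw [if_neg h3] at h1
      exact hz (hG.func _ _ _ _ (enum_D he hi) h1 h2)
    · intro h2
      rw [if_pos h2] at h1
      exact h1
  refine ⟨e', ?_, ?_⟩
  · intro x
    constructor
    · intro hx
      let f : Fin N → Bool := fun m => decide (M.E x (e (N - 1 - m)) z1)
      refine ⟨Nat.ofBits f, Nat.ofBits_lt_two_pow f, ?_⟩
      apply hG.ext
      intro i hi
      obtain ⟨k, hk, rfl⟩ := (he.1 _).1 hi
      have h1 : (Nat.ofBits f).testBit (N - 1 - k) = decide (M.E x (e k) z1) := by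
        rw [Nat.testBit_ofBits_lt f (N - 1 - k) (by omega)]
        show decide (M.E x (e (N - 1 - (N - 1 - k))) z1) = _
        rw [show N - 1 - (N - 1 - k) = k by omega]
      have h2 := he' (Nat.ofBits f) k hk
      rw [h1] at h2
      rcases hx (e k) hi with h3 | h3
      · refine ⟨z0, h3, ?_⟩
        have h4 : ¬ M.E x (e k) z1 := fun h => hz (hG.func _ _ _ _ hi h3 h)
        rwa [if_neg (by simpa using h4)] at h2
      · refine ⟨z1, h3, ?_⟩
        rwa [if_pos (by simpa using h3)] at h2
    · rintro ⟨k, hk, rfl⟩ i hi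
      obtain ⟨i, hi', rfl⟩ := (he.1 _).1 hi
      have h1 := he' k i hi'
      by_cases h2 : k.testBit (N - 1 - i) = true
      · rw [if_pos h2] at h1
        exact Or.inr h1
      · rw [if_neg h2] at h1
        exact Or.inl h1
  · intro j k hj hk
    constructor
    · rintro ⟨i, hi, h1, h2, h3⟩
      obtain ⟨i, hi', rfl⟩ := (he.1 _).1 hi
      rw [hval0 j i hi'] at h1
      rw [hval1 k i hi'] at h2
      refine Nat.lt_of_testBit (N - 1 - i) h1 h2 ?_
      intro m hm
      by_cases hmN : m < N
      · have hlt : N - 1 - m < N := by omega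
        have h4 := h3 (e (N - 1 - m)) (enum_D he hlt) ((he.2 _ _ hlt hi').2 (by omega))
        rw [hval0 j _ hlt, hval0 k _ hlt, hval1 j _ hlt, hval1 k _ hlt,
          show N - 1 - (N - 1 - m) = m by omega] at h4
        rcases h4 with ⟨h5, h6⟩ | ⟨h5, h6⟩
        · rw [h5, h6]
        · rw [h5, h6]
      · have hle : N ≤ m := not_lt.1 hmN
        rw [Nat.testBit_lt_two_pow (lt_of_lt_of_le hj (Nat.pow_le_pow_right (by norm_num) hle)),
          Nat.testBit_lt_two_pow (lt_of_lt_of_le hk (Nat.pow_le_pow_right (by norm_num) hle))]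
    · intro h
      obtain ⟨m, hmN, h1, h2, h3⟩ := exists_high hk h
      have hlt : N - 1 - m < N := by omega
      have hmm : N - 1 - (N - 1 - m) = m := by omega
      refine ⟨e (N - 1 - m), enum_D he hlt, ?_, ?_, ?_⟩
      · rw [hval0 j _ hlt, hmm]
        exact h1
      · rw [hval1 k _ hlt, hmm]
        exact h2
      · intro x hx hL
        obtain ⟨i, hi, rfl⟩ := (he.1 _).1 hx
        have h4 := (he.2 _ _ hi hlt).1 hL
        have h5 := h3 (N - 1 - i) (by omega)
        rw [hval0 j _ hi, hval0 k _ hi, hval1 j _ hi, hval1 k _ hi, h5]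
        by_cases h6 : k.testBit (N - 1 - i) = true
        · exact Or.inr ⟨h6, h6⟩
        · rw [Bool.not_eq_true] at h6
          exact Or.inl ⟨h6, h6⟩

end Pool.Agent.Y972.EL
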