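import Pool.Agent.Y924.EL.Stm

/-! # Project EL: the enumeration of pairs in a level -/

set_option autoImplicit false

namespace Pool.Agent.Y972.EL

open Pool.Agent.Y924.EL

section

variable {K : Type} {M : Lev K} {N : ℕ} {e : ℕ → K}

theorem enum_inj (he : Enum M N e) {j k : ℕ} (hj : j < N) (hk : k < N) (h : e j = e k) :
    j = k := by
  rcases lt_trichotomy j k with h1 | h1 | h1
  · have h2 := (he.2 j k hj hk).2 h1
    rw [h] at h2
    exact absurd ((he.2 k k hk hk).1 h2) (lt_irrefl _)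
  · exact h1
  · have h2 := (he.2 k j hk hj).2 h1
    rw [h] at h2
    exact absurd ((he.2 k k hk hk).1 h2) (lt_irrefl _)

theorem enum_D (he : Enum M N e) {k : ℕ} (hk : k < N) : M.D (e k) := (he.1 _).2 ⟨k, hk, rfl⟩

theorem fst_iff (he : Enum M N e) (x : K) : Fst M x ↔ 0 < N ∧ x = e 0 := by
  constructor
  · rintro ⟨h1, h2⟩
    obtain ⟨k, hk, rfl⟩ := (he.1 _).1 h1
    have h0 : 0 < N := lt_of_le_of_lt (Nat.zero_le _) hk
    refine ⟨h0, ?_⟩
    rcases Nat.eq_zero_or_pos k with h3 | h3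
    · rw [h3]
    · exact absurd ⟨e 0, enum_D he h0, (he.2 0 k h0 hk).2 h3⟩ h2
  · rintro ⟨h0, rfl⟩
    refine ⟨enum_D he h0, ?_⟩
    rintro ⟨j, hj, hL⟩
    obtain ⟨k, hk, rfl⟩ := (he.1 _).1 hj
    exact absurd ((he.2 k 0 hk h0).1 hL) (Nat.not_lt_zero _)

theorem suc_iff (he : Enum M N e) (x y : K) :
    Suc M x y ↔ ∃ k, k + 1 < N ∧ x = e k ∧ y = e (k + 1) := by
  constructor
  · rintro ⟨h1, h2, h3, h4⟩
    obtain ⟨j, hj, rfl⟩ := (he.1 _).1 h1
    obtain ⟨k, hk, rfl⟩ := (he.1 _).1 h2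
    have h5 := (he.2 j k hj hk).1 h3
    have h6 : k = j + 1 := by
      by_contra h7
      have h8 : j + 1 < k := by omega
      have h9 : j + 1 < N := by omega
      exact h4 ⟨e (j + 1), enum_D he h9, (he.2 _ _ hj h9).2 (Nat.lt_succ_self _),
        (he.2 _ _ h9 hk).2 h8⟩
    subst h6
    exact ⟨j, hk, rfl, rfl⟩
  · rintro ⟨k, hk, rfl, rfl⟩
    have hk' : k < N := by omega
    refine ⟨enum_D he hk', enum_D he hk, (he.2 _ _ hk' hk).2 (Nat.lt_succ_self _), ?_⟩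
    rintro ⟨j, hj, h1, h2⟩
    obtain ⟨j, hj', rfl⟩ := (he.1 _).1 hj
    have h3 := (he.2 _ _ hk' hj').1 h1
    have h4 := (he.2 _ _ hj' hk).1 h2
    omega

theorem suc_e (he : Enum M N e) {i j : ℕ} (hi : i < N) (hj : j < N) :
    Suc M (e i) (e j) ↔ j = i + 1 := by
  rw [suc_iff he]
  constructor
  · rintro ⟨k, hk, h1, h2⟩
    have h3 := enum_inj he hi (by omega) h1
    have h4 := enum_inj he hj hk h2
    omega
  · rintro rfl
    exact ⟨i, hj, rfl, rfl⟩

theorem fst_e (he : Enum M N e) {i : ℕ} (hi : i < N) : Fst M (e i) ↔ i = 0 := by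
  rw [fst_iff he]
  constructor
  · rintro ⟨h0, h1⟩
    exact enum_inj he hi h0 h1
  · rintro rfl
    exact ⟨hi, rfl⟩

/-- codes of functions of numbers -/
theorem exists_code (hG : Good M N) (he : Enum M N e) (f : ℕ → K) :
    ∃ s, ∀ k, k < N → M.E s (e k) (f k) := by
  classical
  obtain ⟨s, hs⟩ := hG.comp (fun z => if h : ∃ k, k < N ∧ z = e k then f h.choose else z)
  refine ⟨s, fun k hk => ?_⟩
  have h1 := hs (e k) (enum_D he hk)
  have h2 : ∃ k', k' < N ∧ e k = e k' := ⟨k, hk, rfl⟩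
  simp only [dif_pos h2] at h1
  have h3 := h2.choose_spec
  rwa [← enum_inj he hk h3.1 h3.2] at h1

theorem unpair_succ (k : ℕ) :
    (k.unpair.1 + 1 < k.unpair.2 ∧ (k + 1).unpair = (k.unpair.1 + 1, k.unpair.2)) ∨
    (k.unpair.1 + 1 = k.unpair.2 ∧ (k + 1).unpair = (k.unpair.2, 0)) ∨
    (k.unpair.2 < k.unpair.1 ∧ (k + 1).unpair = (k.unpair.1, k.unpair.2 + 1)) ∨
    (k.unpair.1 = k.unpair.2 ∧ (k + 1).unpair = (0, k.unpair.1 + 1)) := by
  obtain ⟨x, y, hxy⟩ : ∃ x y, k.unpair = (x, y) := ⟨_, _, rfl⟩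
  have hk : k = Nat.pair x y := by
    rw [← Nat.pair_unpair k, hxy]
  rw [hxy]
  simp only
  rcases lt_trichotomy x y with h | h | h
  · rcases Nat.lt_or_ge (x + 1) y with h1 | h1
    · left
      refine ⟨h1, ?_⟩
      have : k + 1 = Nat.pair (x + 1) y := by
        rw [hk, Nat.pair, Nat.pair, if_pos h, if_pos h1]
        ring
      rw [this, Nat.unpair_pair]
    · right; left
      have h2 : x + 1 = y := by omega
      refine ⟨h2, ?_⟩
      have : k + 1 = Nat.pair y 0 := by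
        rw [hk, Nat.pair, Nat.pair, if_pos h, if_neg (Nat.not_lt_zero y), ← h2]
        ring
      rw [this, Nat.unpair_pair]
  · right; right; right
    refine ⟨h, ?_⟩
    subst h
    have : k + 1 = Nat.pair 0 (x + 1) := by
      rw [hk, Nat.pair, Nat.pair, if_neg (lt_irrefl x), if_pos (Nat.succ_pos x)]
      ring
    rw [this, Nat.unpair_pair]
  · right; right; left
    refine ⟨h, ?_⟩
    have : k + 1 = Nat.pair x (y + 1) := by
      rw [hk, Nat.pair, Nat.pair, if_neg (not_lt.2 h.le), if_neg (not_lt.2 h)]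
      ring
    rw [this, Nat.unpair_pair]

theorem nxt_iff (he : Enum M N e) {k : ℕ} (hk : k + 1 < N) (a b : K) :
    Nxt M (e k.unpair.1) (e k.unpair.2) a b ↔
      a = e (k + 1).unpair.1 ∧ b = e (k + 1).unpair.2 := by
  have hx : k.unpair.1 < N := by
    have := Nat.unpair_left_le k
    omega
  have hy : k.unpair.2 < N := by
    have := Nat.unpair_right_le k
    omega
  have hx' : (k + 1).unpair.1 < N := lt_of_le_of_lt (Nat.unpair_left_le _) hk
  have hy' : (k + 1).unpair.2 < N := lt_of_le_of_lt (Nat.unpair_right_le _) hk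
  have hcase := unpair_succ k
  constructor
  · rintro (⟨u, hs, hL, rfl, rfl⟩ | ⟨hs, rfl, hf⟩ | ⟨hL, rfl, hs⟩ | ⟨hxy, hf, hs⟩)
    · obtain ⟨j, hj, h1, rfl⟩ := (suc_iff he _ _).1 hs
      have h2 := enum_inj he hx (by omega) h1
      subst h2
      have h3 := (he.2 _ _ hj hy).1 hL
      rcases hcase with ⟨h4, h5⟩ | ⟨h4, h5⟩ | ⟨h4, h5⟩ | ⟨h4, h5⟩
      · rw [h5]; exact ⟨rfl, rfl⟩
      · omega
      · omega
      · omega
    · have h1 := (suc_e he hx hy).1 hs
      obtain ⟨-, rfl⟩ := (fst_iff he _).1 hf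
      rcases hcase with ⟨h4, h5⟩ | ⟨h4, h5⟩ | ⟨h4, h5⟩ | ⟨h4, h5⟩
      · omega
      · rw [h5]; exact ⟨rfl, rfl⟩
      · omega
      · omega
    · have h1 := (he.2 _ _ hy hx).1 hL
      obtain ⟨j, hj, h2, rfl⟩ := (suc_iff he _ _).1 hs
      have h3 := enum_inj he hy (by omega) h2
      subst h3
      rcases hcase with ⟨h4, h5⟩ | ⟨h4, h5⟩ | ⟨h4, h5⟩ | ⟨h4, h5⟩
      · omega
      · omega
      · rw [h5]; exact ⟨rfl, rfl⟩
      · omega
    · have h1 := enum_inj he hx hy hxy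
      obtain ⟨-, rfl⟩ := (fst_iff he _).1 hf
      obtain ⟨j, hj, h2, rfl⟩ := (suc_iff he _ _).1 hs
      have h3 := enum_inj he hx (by omega) h2
      rcases hcase with ⟨h4, h5⟩ | ⟨h4, h5⟩ | ⟨h4, h5⟩ | ⟨h4, h5⟩
      · omega
      · omega
      · omega
      · rw [h5, ← h3]; exact ⟨rfl, rfl⟩
  · rintro ⟨rfl, rfl⟩
    rcases hcase with ⟨h4, h5⟩ | ⟨h4, h5⟩ | ⟨h4, h5⟩ | ⟨h4, h5⟩
    · rw [h5] at hx' hy' ⊢
      left
      exact ⟨_, (suc_e he hx hx').2 rfl, (he.2 _ _ hx' hy).2 h4, rfl, rfl⟩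
    · rw [h5] at hx' hy' ⊢
      right; left
      exact ⟨(suc_e he hx hy).2 h4.symm, rfl, (fst_e he hy').2 rfl⟩
    · rw [h5] at hx' hy' ⊢
      right; right; left
      exact ⟨(he.2 _ _ hy hx).2 h4, rfl, (suc_e he hy hy').2 rfl⟩
    · rw [h5] at hx' hy' ⊢
      right; right; right
      refine ⟨by rw [h4], (fst_e he hx').2 rfl, (suc_e he hx hy').2 rfl⟩

end

/-- EL-PAIR -/
theorem t_PAIR : S_PAIR := by
  intro K M N e hG he a b c
  constructor
  · rintro ⟨hc, s, r, h0, hs, ha, hb⟩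
    obtain ⟨k, hk, rfl⟩ := (he.1 _).1 hc
    have key : ∀ j, j < N → M.E s (e j) (e j.unpair.1) ∧ M.E r (e j) (e j.unpair.2) := by
      intro j
      induction j with
      | zero =>
        intro hj
        exact h0 (e 0) ((fst_iff he _).2 ⟨hj, rfl⟩)
      | succ j ih =>
        intro hj
        obtain ⟨ih1, ih2⟩ := ih (by omega)
        obtain ⟨x, y, x', y', h1, h2, h3, h4, h5⟩ :=
          hs (e j) (e (j + 1)) ((suc_iff he _ _).2 ⟨j, hj, rfl, rfl⟩)
        have hDj : M.D (e j) := enum_D he (by omega)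
        have h6 := hG.func _ _ _ _ hDj h1 ih1
        have h7 := hG.func _ _ _ _ hDj h2 ih2
        subst h6
        subst h7
        obtain ⟨h8, h9⟩ := (nxt_iff he hj x' y').1 h5
        rw [h8] at h3
        rw [h9] at h4
        exact ⟨h3, h4⟩
    obtain ⟨h1, h2⟩ := key k hk
    have h3 := hG.func _ _ _ _ hc ha h1
    have h4 := hG.func _ _ _ _ hc hb h2
    exact ⟨k.unpair.1, k.unpair.2, by rwa [Nat.pair_unpair], h3, h4, by rw [Nat.pair_unpair]⟩
  · rintro ⟨i, j, hij, rfl, rfl, rfl⟩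
    obtain ⟨s, hs⟩ := exists_code hG he (fun k => e k.unpair.1)
    obtain ⟨r, hr⟩ := exists_code hG he (fun k => e k.unpair.2)
    refine ⟨enum_D he hij, s, r, ?_, ?_, ?_, ?_⟩
    · intro x hx
      obtain ⟨h0, rfl⟩ := (fst_iff he _).1 hx
      exact ⟨hs 0 h0, hr 0 h0⟩
    · intro x y hxy
      obtain ⟨k, hk, rfl, rfl⟩ := (suc_iff he _ _).1 hxy
      exact ⟨_, _, _, _, hs k (by omega), hr k (by omega), hs (k + 1) hk, hr (k + 1) hk,
        (nxt_iff he hk _ _).2 ⟨rfl, rfl⟩⟩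
    · have := hs _ hij
      rwa [Nat.unpair_pair] at this
    · have := hr _ hij
      rwa [Nat.unpair_pair] at this

end Pool.Agent.Y972.EL
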